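import Pool.Agent.MP_b4c6b8_lc.H74.Main

/-! Every algebraically bounded field of characteristic zero is finitely hereditarily
undecidable. -/

namespace Pool.Agent.Results.MP_b4c6b8_lc.AlgBounded

open Pool.Agent.MP_b4c6b8_lc.H74

theorem result (K : Type) [Field K] [CharZero K] [FirstOrder.Ring.CompatibleRing K]
    (hK : AlgBounded K) (Φ : FirstOrder.Language.ring.Theory) (hfin : Set.Finite Φ)
    (hΦ : FirstOrder.Language.Theory.Model K Φ) :
    ¬ ComputablePred fun k : ℕ => ∃ σ : FirstOrder.Language.ring.Sentence, code σ = k ∧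
      FirstOrder.Language.Theory.ModelsBoundedFormula Φ σ :=
  main K hK Φ hfin hΦ

end Pool.Agent.Results.MP_b4c6b8_lc.AlgBounded
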