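import Pool.Agent.MP_b4c6b8_lc.H22C.Main

/-! Rings and fields of algebraic numbers that define a ring of integers of CM type of infinite
degree are hereditarily undecidable. -/

namespace Pool.Agent.Results.MP_b4c6b8_lc.CMIntegers

open Pool.Agent.MP_b4c6b8_lc.H74

theorem result (R O : Subring (AlgebraicClosure ℚ)) [FirstOrder.Ring.CompatibleRing R]
    (hOR : O ≤ R) (hint : ∀ x ∈ O, IsIntegral ℤ x)
    (hcm : ∀ x ∈ O, ∃ a b i : AlgebraicClosure ℚ, i ^ 2 = -1 ∧ x = a + b * i ∧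
      ∀ σ : AlgebraicClosure ℚ →+* ℂ, (σ a).im = 0 ∧ (σ b).im = 0)
    (hinf : ¬ FiniteDimensional ℚ
      (IntermediateField.adjoin ℚ (O : Set (AlgebraicClosure ℚ))))
    (n : ℕ) (θ : FirstOrder.Language.ring.BoundedFormula Empty (n + 1)) (a : Fin n → R)
    (hθ : ∀ x : R, θ.Realize Empty.elim (Fin.snoc a x) ↔ (x : AlgebraicClosure ℚ) ∈ O)
    (Φ : FirstOrder.Language.ring.Theory) (hΦ : FirstOrder.Language.Theory.Model R Φ) :
    ¬ ComputablePred fun k : ℕ => ∃ σ : FirstOrder.Language.ring.Sentence, code σ = k ∧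
      FirstOrder.Language.Theory.ModelsBoundedFormula Φ σ :=
  Pool.Agent.MP_b4c6b8_lc.H22C.main R O hOR hint
    (fun x hx =>
      let ⟨_, _, _, h1, h2, h3⟩ := hcm x hx
      ⟨_, Pool.Agent.MP_b4c6b8_lc.H22C.cj_of h1 h2 h3⟩)
    hinf n θ a hθ Φ hΦ

end Pool.Agent.Results.MP_b4c6b8_lc.CMIntegers
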