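import Pool.Agent.MP_b4c6b8_lc.H22.All

/-! Totally real rings and fields with large definable sets that are finite or integral are
hereditarily undecidable. -/

namespace Pool.Agent.Results.MP_b4c6b8_lc.TotallyReal

open Pool.Agent.MP_b4c6b8_lc.H74

theorem result (R : Subring (AlgebraicClosure ℚ)) [FirstOrder.Ring.CompatibleRing R]
    (hreal : ∀ x ∈ R, ∀ σ : AlgebraicClosure ℚ →+* ℂ, (σ x).im = 0)
    (hinf : ¬ FiniteDimensional ℚ
      (IntermediateField.adjoin ℚ (R : Set (AlgebraicClosure ℚ))))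
    (n : ℕ) (θ : FirstOrder.Language.ring.BoundedFormula Empty (n + 1))
    (hθ : ∀ N : ℕ, ∃ a : Fin n → R,
      (N : ℕ∞) ≤ {x : R | θ.Realize Empty.elim (Fin.snoc a x)}.encard ∧
        ({x : R | θ.Realize Empty.elim (Fin.snoc a x)}.Finite ∨
          ∀ x : R, θ.Realize Empty.elim (Fin.snoc a x) → IsIntegral ℤ (x : AlgebraicClosure ℚ)))
    (Φ : FirstOrder.Language.ring.Theory) (hΦ : FirstOrder.Language.Theory.Model R Φ) :
    ¬ ComputablePred fun k : ℕ => ∃ σ : FirstOrder.Language.ring.Sentence, code σ = k ∧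
      FirstOrder.Language.Theory.ModelsBoundedFormula Φ σ :=
  Pool.Agent.MP_b4c6b8_lc.H22.asm Pool.Agent.MP_b4c6b8_lc.H22.allPOS
    Pool.Agent.MP_b4c6b8_lc.H22.allPH Pool.Agent.MP_b4c6b8_lc.H22.allSH R hreal hinf n θ hθ Φ hΦ

end Pool.Agent.Results.MP_b4c6b8_lc.TotallyReal
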